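import Mathlib

set_option autoImplicit false

namespace Pool.Agent.Results.MP_dc1a88_an.Depends

open Finset Matrix

/-- unit vectors `v i` in `ℝ^r` forming a real equiangular tight frame -/
def IsETF {N r : ℕ} (v : Fin N → Fin r → ℝ) : Prop :=
  (∀ i, v i ⬝ᵥ v i = 1) ∧
  (∀ a b, ∑ i, v i a * v i b = if a = b then (N : ℝ) / r else 0) ∧
  ∃ α : ℝ, 0 ≤ α ∧ α ≤ 1 ∧ ∀ i j, i ≠ j → |v i ⬝ᵥ v j| = α

def gram {N r : ℕ} (v : Fin N → Fin r → ℝ) : Matrix (Fin N) (Fin N) ℝ :=
  Matrix.of fun i j => v i ⬝ᵥ v j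

/-- number of times `k` appears in the tuple `i` -/
def cnt {N M : ℕ} (i : Fin M → Fin N) (k : Fin N) : ℕ := (univ.filter fun t => i t = k).card

/-- the tuple `(1, …, 1, a)` of length `m + 1` (the element `1` of `[N]` is `0 : Fin N`) -/
def tup {N : ℕ} [NeZero N] (m : ℕ) (a : Fin N) : Fin (m + 1) → Fin N :=
  fun t => if t = Fin.last m then a else 0

/-- `X` lies in the generalized elliptope of degree `d = 2 (m + 1)` -/
def InE {N : ℕ} [NeZero N] (m : ℕ) (X : Matrix (Fin N) (Fin N) ℝ) : Prop :=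
  X.IsSymm ∧ ∃ Y : Matrix (Fin (m + 1) → Fin N) (Fin (m + 1) → Fin N) ℝ,
    (∀ i j, (∀ k, Even (cnt i k + cnt j k)) → Y i j = 1) ∧
    (∀ i j i' j', (∀ k, Odd (cnt i k + cnt j k) ↔ Odd (cnt i' k + cnt j' k)) → Y i j = Y i' j') ∧
    (∀ a b, Y (tup m a) (tup m b) = X a b) ∧ Y.PosSemidef

/-- the supremum of the positive even `d` with `X` in the degree `d` elliptope -/
noncomputable def dstar {N : ℕ} [NeZero N] (X : Matrix (Fin N) (Fin N) ℝ) : ℕ∞ :=
  ⨆ (m : ℕ) (_ : InE m X), ((2 * (m + 1) : ℕ) : ℕ∞)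

section general
variable {N : ℕ} [NeZero N]

lemma prod_cnt {M : ℕ} (x : Fin N → ℝ) (i : Fin M → Fin N) :
    ∏ t, x (i t) = ∏ k, x k ^ cnt i k := by
  rw [← Finset.prod_fiberwise' univ i x]
  simp [cnt]

lemma pow_par {x : ℝ} (h : x * x = 1) (n : ℕ) : x ^ n = if Odd n then x else 1 := by
  have h2 : x ^ 2 = 1 := by rw [sq, h]
  rcases Nat.even_or_odd' n with ⟨k, rfl | rfl⟩
  · rw [if_neg (by simp), pow_mul, h2, one_pow]
  · rw [if_pos (by simp), pow_succ, pow_mul, h2, one_pow, one_mul]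

lemma inE_of_cut {ι : Type} [Fintype ι] (p : ι → ℝ) (x : ι → Fin N → ℝ) (hp : ∀ l, 0 ≤ p l)
    (h1 : ∑ l, p l = 1) (hx : ∀ l a, x l a * x l a = 1) {X : Matrix (Fin N) (Fin N) ℝ}
    (hX : ∀ a b, X a b = ∑ l, p l * (x l a * x l b)) (m : ℕ) : InE m X := by
  have e : ∀ l (i j : Fin (m + 1) → Fin N), (∏ t, x l (i t)) * ∏ t, x l (j t) =
      ∏ k, if Odd (cnt i k + cnt j k) then x l k else 1 := by
    intro l i j
    rw [prod_cnt, prod_cnt, ← prod_mul_distrib]
    exact prod_congr rfl fun k _ => by rw [← pow_add, pow_par (hx l k)]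
  refine ⟨IsSymm.ext fun a b => by simp only [hX, mul_comm (x _ a)],
    Matrix.of fun i j => ∑ l, p l * ((∏ t, x l (i t)) * ∏ t, x l (j t)), ?_, ?_, ?_, ?_⟩
  · intro i j h
    simp only [of_apply, e, ← Nat.not_even_iff_odd, h, not_true, if_false, prod_const_one, mul_one,
      h1]
  · intro i j i' j' h
    simp only [of_apply, e, h]
  · intro a b
    rw [of_apply, hX]
    refine sum_congr rfl fun l _ => ?_
    simp only [Fin.prod_univ_castSucc, tup, Fin.castSucc_ne_last, if_false, if_true, prod_const]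
    have := hx l 0
    rw [mul_mul_mul_comm, ← mul_pow, this, one_pow, one_mul]
  · refine .of_dotProduct_mulVec_nonneg (IsHermitian.ext fun i j => by
      simp only [of_apply, star_trivial, mul_comm (∏ t, x _ (i t))]) fun c => ?_
    have : star c ⬝ᵥ (Matrix.of fun i j => ∑ l, p l * ((∏ t, x l (i t)) * ∏ t, x l (j t))) *ᵥ c =
        ∑ l, p l * (∑ i, c i * ∏ t, x l (i t)) ^ 2 := by
      simp only [dotProduct, mulVec, of_apply, star_trivial, sq, sum_mul, mul_sum]
      rw [sum_congr rfl fun i _ => sum_comm, sum_comm]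
      exact sum_congr rfl fun l _ => sum_congr rfl fun i _ => sum_congr rfl fun j _ => by ring
    rw [this]
    exact sum_nonneg fun l _ => mul_nonneg (hp l) (sq_nonneg _)

lemma sum_cnt {M : ℕ} (i : Fin M → Fin N) : ∑ k, cnt i k = M := by
  simp only [cnt]
  rw [← card_eq_sum_card_fiberwise (fun _ _ => mem_univ _)]
  simp

lemma odd_iff_cast (n n' : ℕ) : (Odd n ↔ Odd n') ↔ (n : ZMod 2) = n' := by
  rw [ZMod.natCast_eq_natCast_iff', Nat.odd_iff, Nat.odd_iff]; omega

lemma par {M : ℕ} {i j i' j' : Fin M → Fin N}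
    (h : ∀ k, k ≠ 0 → (Odd (cnt i k + cnt j k) ↔ Odd (cnt i' k + cnt j' k))) (k : Fin N) :
    Odd (cnt i k + cnt j k) ↔ Odd (cnt i' k + cnt j' k) := by
  by_cases hk : k = 0
  · subst hk
    rw [odd_iff_cast]
    have a : ∑ k, ((cnt i k + cnt j k : ℕ) : ZMod 2) = ∑ k, ((cnt i' k + cnt j' k : ℕ) : ZMod 2) := by
      rw [← Nat.cast_sum, ← Nat.cast_sum, sum_add_distrib, sum_add_distrib, sum_cnt, sum_cnt,
        sum_cnt, sum_cnt]
    rw [← add_sum_erase _ _ (mem_univ 0), ← add_sum_erase _ _ (mem_univ (0 : Fin N)),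
      sum_congr rfl fun k hk => (odd_iff_cast _ _).mp (h k (ne_of_mem_erase hk))] at a
    exact add_right_cancel a
  · exact h k hk

lemma cnt_tup (m : ℕ) (a k : Fin N) (hk : k ≠ 0) : cnt (tup m a) k = if k = a then 1 else 0 := by
  unfold cnt tup
  split_ifs with h
  · subst h
    rw [card_eq_one]
    refine ⟨Fin.last m, ext fun t => ?_⟩
    by_cases ht : t = Fin.last m <;> simp [ht, hk.symm]
  · rw [card_eq_zero, filter_eq_empty_iff]
    intro t _
    split_ifs
    exacts [Ne.symm h, hk.symm]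

def tau (m : ℕ) (T : Fin N → Bool) : Fin (m + 1) → Fin N :=
  fun t => if h : t.val < N then (if T ⟨t, h⟩ then ⟨t, h⟩ else 0) else 0

lemma cnt_tau {m : ℕ} (hm : N ≤ m + 1) (T : Fin N → Bool) (k : Fin N) (hk : k ≠ 0) :
    cnt (tau m T) k = if T k then 1 else 0 := by
  have key : ∀ t, tau m T t = k ↔ (T k = true ∧ t = Fin.castLE hm k) := by
    intro t
    unfold tau
    constructor
    · intro h
      split_ifs at h with h1 h2
      · subst h; exact ⟨h2, rfl⟩
      · exact absurd h.symm hk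
      · exact absurd h.symm hk
    · rintro ⟨h1, rfl⟩
      simp [h1]
  unfold cnt
  simp only [key]
  split_ifs with h
  · simp [h, filter_eq']
  · simp [h]

def sg (b : Bool) : ℝ := if b then -1 else 1

def chi (x T : Fin N → Bool) : ℝ := ∏ k, sg (x k && T k)

lemma chi_mul (x T T' : Fin N → Bool) : chi x T * chi x T' = chi x fun k => xor (T k) (T' k) := by
  simp only [chi, ← prod_mul_distrib]
  refine prod_congr rfl fun k _ => ?_
  cases x k <;> cases T k <;> cases T' k <;> simp [sg]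

lemma sum_chi (T : Fin N → Bool) : ∑ x, chi x T = if T = fun _ => false then 2 ^ N else 0 := by
  have := Finset.prod_univ_sum (fun _ : Fin N => (univ : Finset Bool)) fun k b => sg (b && T k)
  rw [Fintype.piFinset_univ] at this
  simp only [chi]
  rw [← this]
  split_ifs with h
  · simp [h, sg]
  · obtain ⟨k, hk⟩ := Function.ne_iff.mp h
    exact prod_eq_zero (mem_univ k) (by simp at hk; simp [hk, sg])

lemma chi_one (x : Fin N → Bool) (a : Fin N) : chi x (fun k => decide (k = a)) = sg (x a) := by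
  rw [chi, prod_eq_single a] <;> simp +contextual [sg]

lemma cut_of_inE {m : ℕ} (hm : N ≤ m + 1) {X : Matrix (Fin N) (Fin N) ℝ} (h : InE m X) :
    ∃ p : (Fin N → Bool) → ℝ, (∀ x, 0 ≤ p x) ∧
      ∀ a b, X a b = ∑ x, p x * (sg (x a) * sg (x b)) := by
  obtain ⟨-, Y, -, h2, h3, h4⟩ := h
  refine ⟨fun x => (∑ T, ∑ T', chi x T * Y (tau m T) (tau m T') * chi x T') / (2 ^ N * 2 ^ N),
    fun x => div_nonneg ?_ (by positivity), fun a b => ?_⟩
  · have := (h4.submatrix (tau m)).dotProduct_mulVec_nonneg (chi x)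
    simpa only [dotProduct, mulVec, star_trivial, submatrix_apply, mul_sum, mul_assoc] using this
  · set S : Fin N → Bool := fun k => xor (decide (k = a)) (decide (k = b)) with hS
    have e1 : ∀ x : Fin N → Bool, sg (x a) * sg (x b) = chi x S := fun x => by
      rw [← chi_one, ← chi_one, chi_mul]
    have e2 : ∀ T : Fin N → Bool, Y (tau m T) (tau m fun k => xor (T k) (S k)) = X a b := by
      intro T
      rw [← h3]
      refine h2 _ _ _ _ (par fun k hk => ?_)
      rw [cnt_tau hm _ _ hk, cnt_tau hm _ _ hk, cnt_tup _ _ _ hk, cnt_tup _ _ _ hk]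
      have t : ∀ c d e : Bool, Odd ((if e then 1 else 0) + (if xor e (xor c d) then 1 else 0) : ℕ) ↔
          Odd ((if c then 1 else 0) + (if d then 1 else 0) : ℕ) := by decide
      simpa only [hS, decide_eq_true_eq] using t (decide (k = a)) (decide (k = b)) (T k)
    have e3 : ∀ T T' : Fin N → Bool, ∑ x, chi x T * Y (tau m T) (tau m T') * chi x T' * chi x S =
        if T' = fun k => xor (T k) (S k) then 2 ^ N * X a b else 0 := by
      intro T T'
      have : ∀ x, chi x T * Y (tau m T) (tau m T') * chi x T' * chi x S =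
          Y (tau m T) (tau m T') * chi x fun k => xor (xor (T k) (T' k)) (S k) := fun x => by
        rw [← chi_mul x _ S, ← chi_mul x T T']; ring
      simp only [this, ← mul_sum, sum_chi]
      by_cases hT : T' = fun k => xor (T k) (S k)
      · rw [if_pos hT, if_pos (by
          funext k; rw [hT]; simp only []; cases T k <;> cases S k <;> rfl), hT, e2, mul_comm]
      · rw [if_neg hT, if_neg, mul_zero]
        intro h
        refine hT (funext fun k => ?_)
        have := congrFun h k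
        revert this
        cases T k <;> cases T' k <;> cases S k <;> simp
    simp only [e1, div_mul_eq_mul_div, ← sum_div, sum_mul]
    rw [sum_comm, sum_congr rfl fun T _ => sum_comm]
    simp only [e3, sum_ite_eq', mem_univ, if_true, sum_const, card_univ, Fintype.card_pi,
      Fintype.card_bool, prod_const, Fintype.card_fin, nsmul_eq_mul]
    push_cast
    field_simp

omit [NeZero N] in
lemma quad {p : (Fin N → Bool) → ℝ} {X : Matrix (Fin N) (Fin N) ℝ}
    (h : ∀ a b, X a b = ∑ x, p x * (sg (x a) * sg (x b))) (c : Fin N → ℝ) :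
    ∑ x, p x * (∑ k, c k * sg (x k)) ^ 2 = ∑ k, ∑ l, c k * c l * X k l := by
  simp only [h, sq, sum_mul, mul_sum]
  rw [sum_comm, sum_congr rfl fun k _ => sum_comm]
  exact sum_congr rfl fun k _ => sum_congr rfl fun l _ => sum_congr rfl fun x _ => by ring

end general

lemma etf_of (G : Fin 26 → Fin 26 → ℤ) (hs : ∀ i j, G j i = G i j) (hd : ∀ i, G i i = 5)
    (ho : ∀ i j, i ≠ j → |G i j| = 1) (h2 : ∀ i j, ∑ k, G i k * G k j = 10 * G i j) :
    ∃ v : Fin 26 → Fin 13 → ℝ, IsETF v ∧ ∀ i j, gram v i j = (G i j : ℝ) / 5 := by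
  set X : Matrix (Fin 26) (Fin 26) ℝ := Matrix.of fun i j => (G i j : ℝ) / 5 with hX
  have hH : X.IsHermitian := IsHermitian.ext fun i j => by simp [hX, hs i j]
  have hXX : X * X = (2 : ℝ) • X := by
    ext i j
    have := congrArg (Int.cast : ℤ → ℝ) (h2 i j)
    push_cast at this
    simp only [hX, mul_apply, of_apply, Matrix.smul_apply, smul_eq_mul, div_mul_div_comm, ← sum_div, this]
    ring
  have hev : ∀ k, hH.eigenvalues k = 2 ∨ hH.eigenvalues k = 0 := by
    intro k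
    have a := hH.mulVec_eigenvectorBasis k
    have b : (X * X) *ᵥ ⇑(hH.eigenvectorBasis k) = ((2 : ℝ) • X) *ᵥ ⇑(hH.eigenvectorBasis k) := by
      rw [hXX]
    rw [← mulVec_mulVec, a, mulVec_smul, a, smul_mulVec, a, smul_smul, smul_smul] at b
    have c : (⇑(hH.eigenvectorBasis k) : Fin 26 → ℝ) ≠ 0 :=
      (WithLp.ofLp_eq_zero 2).ne.2 (hH.eigenvectorBasis.orthonormal.ne_zero k)
    have d := smul_left_injective ℝ c b
    by_contra hn
    push Not at hn
    exact hn.1 (mul_right_cancel₀ hn.2 d)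
  have hc : Fintype.card {k // hH.eigenvalues k = 2} = 13 := by
    have a := hH.trace_eq_sum_eigenvalues
    have b : X.trace = 26 := by simp [trace, hX, hd]
    have c : ∀ k, hH.eigenvalues k = if hH.eigenvalues k = 2 then 2 else 0 := fun k => by
      rcases hev k with h | h <;> simp [h]
    simp only [RCLike.ofReal_real_eq_id, id] at a
    rw [b, sum_congr rfl fun k _ => c k, ← sum_filter, sum_const, nsmul_eq_mul] at a
    rw [Fintype.card_subtype]
    exact_mod_cast (by linarith : ((univ.filter fun k => hH.eigenvalues k = 2).card : ℝ) = 13)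
  let e := (Fintype.equivFinOfCardEq hc).symm
  set U : Matrix (Fin 26) (Fin 26) ℝ := hH.eigenvectorUnitary.1 with hU
  have hg : ∀ i j, (fun a => √2 * U i (e a)) ⬝ᵥ (fun a => √2 * U j (e a)) = X i j := by
    intro i j
    have a := congrFun (congrFun hH.spectral_theorem i) j
    rw [a, Unitary.conjStarAlgAut_apply, mul_apply]
    simp only [mul_diagonal, dotProduct, RCLike.ofReal_real_eq_id, Function.comp, id,
      star_apply, star_trivial, ← hU]
    rw [e.sum_comp fun k => √2 * U i k * (√2 * U j k),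
      ← sum_subtype (univ.filter fun k => hH.eigenvalues k = 2) (by simp)
        fun k => √2 * U i k * (√2 * U j k), sum_filter]
    refine sum_congr rfl fun k _ => ?_
    rcases hev k with h | h
    · rw [if_pos h, h, mul_mul_mul_comm, Real.mul_self_sqrt (by norm_num)]; ring
    · simp [h]
  refine ⟨fun i a => √2 * U i (e a), ⟨fun i => by simp [hg, hX, hd], fun a b => ?_, 1 / 5,
    by norm_num, by norm_num, fun i j hij => ?_⟩, hg⟩
  · have h1 := congrFun (congrFun (Unitary.coe_star_mul_self hH.eigenvectorUnitary) (e a)) (e b)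
    simp only [mul_apply, star_apply, star_trivial, ← hU, one_apply, Subtype.coe_inj,
      e.injective.eq_iff] at h1
    simp only [mul_mul_mul_comm √2 _ √2, Real.mul_self_sqrt (show (0 : ℝ) ≤ 2 by norm_num),
      ← mul_sum, h1]
    split_ifs <;> norm_num
  · rw [hg, hX, of_apply, abs_div, ← Int.cast_abs, ho i j hij]; norm_num

def gm (r : List ℕ) (i j : Fin 26) : ℤ :=
  if i = j then 5 else if (r.getD i 0).testBit j then 1 else -1

def r1 : List ℕ := [67108862, 6638717, 13275387, 26487223, 50942767, 36873759, 11112327, 22159181,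
  42284761, 19555825, 39109603, 20050123, 38005141, 10935081, 21806611, 43547749, 37624147, 8204965,
  14378251, 26722901, 51350697, 63122019, 61232263, 57450829, 49826457, 32609585]

def r2 : List ℕ := [60487194, 53865525, 40630378, 14151893, 28295595, 56591190, 46081708, 25062744,
  50125488, 33142113, 66276035, 65451398, 63793933, 20749007, 41489823, 15870783, 31741566,
  63474941, 59849210, 52589557, 38070251, 9039830, 18079660, 36151129, 5193395, 10378599]

def wl : List ℕ := [2046, 63550, 2031678, 65011774, 65472, 2033600, 65013696, 2095104, 65075200,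
  67043328, 6494406, 10824010, 19483218, 36801634, 12988812, 21648020, 38966436, 25977624, 43296040,
  51955248, 13419590, 22301834, 38098194, 6710818, 26773708, 42570068, 11182692, 51452312, 20064936,
  35861296]

def W (l : Fin 30) (i : Fin 26) : ℤ := if (wl.getD l 0).testBit i then -1 else 1

lemma g1 : (∀ i j, gm r1 j i = gm r1 i j) ∧ (∀ i, gm r1 i i = 5) ∧
    (∀ i j, i ≠ j → |gm r1 i j| = 1) ∧ ∀ i j, ∑ k, gm r1 i k * gm r1 k j = 10 * gm r1 i j := by
  decide +kernel

lemma g2 : (∀ i j, gm r2 j i = gm r2 i j) ∧ (∀ i, gm r2 i i = 5) ∧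
    (∀ i j, i ≠ j → |gm r2 i j| = 1) ∧ ∀ i j, ∑ k, gm r2 i k * gm r2 k j = 10 * gm r2 i j := by
  decide +kernel

lemma gW : (∀ i j, ∑ l, W l i * W l j = 6 * gm r1 i j) ∧ ∀ l i, W l i * W l i = 1 := by
  decide +kernel

def rr : List ℤ := [1, 2, 0, 0, -1, -1, 1, 2, -1, 2, -3, 1, 0]

def R (i j : Fin 13) : ℤ := rr.getD ((j.val + 13 - i.val) % 13) 0

def A (i : Fin 13) (k : Fin 26) : ℤ :=
  Fin.addCases (m := 13) (n := 13) (R i) (fun j => if j = i then -3 else 0) k

lemma gA : (∀ i, ∑ k, ∑ l, A i k * A i l * gm r2 k l = 0) ∧ ∑ k, ∑ l, gm r2 k l = 260 := by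
  decide +kernel

def sz (b : Bool) : ℤ := if b then -1 else 1

def ok (b0 b1 b4 b5 b6 b7 b8 b9 b10 b11 : Bool) : Bool :=
  (sz b0 + 2 * sz b1 - sz b4 - sz b5 + sz b6 + 2 * sz b7 - sz b8 + 2 * sz b9 - 3 * sz b10 + sz b11) ^ 2 == 9

lemma key : ∀ b0 b1 b2 b3 b4 b5 b6 b7 b8 b9 b10 b11 b12 : Bool,
    (ok b0 b1 b4 b5 b6 b7 b8 b9 b10 b11 && ok b1 b2 b5 b6 b7 b8 b9 b10 b11 b12 &&
     ok b2 b3 b6 b7 b8 b9 b10 b11 b12 b0 && ok b3 b4 b7 b8 b9 b10 b11 b12 b0 b1 &&
     ok b4 b5 b8 b9 b10 b11 b12 b0 b1 b2 && ok b5 b6 b9 b10 b11 b12 b0 b1 b2 b3 &&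
     ok b6 b7 b10 b11 b12 b0 b1 b2 b3 b4 && ok b7 b8 b11 b12 b0 b1 b2 b3 b4 b5 &&
     ok b8 b9 b12 b0 b1 b2 b3 b4 b5 b6 && ok b9 b10 b0 b1 b2 b3 b4 b5 b6 b7 &&
     ok b10 b11 b1 b2 b3 b4 b5 b6 b7 b8 && ok b11 b12 b2 b3 b4 b5 b6 b7 b8 b9 &&
     ok b12 b0 b3 b4 b5 b6 b7 b8 b9 b10) = true →
    16 ≤ (sz b0 + sz b1 + sz b2 + sz b3 + sz b4 + sz b5 + sz b6 + sz b7 + sz b8 + sz b9 + sz b10 +
      sz b11 + sz b12) ^ 2 := by
  decide +kernel

lemma key' (y : Fin 13 → Bool) (h : ∀ i, (∑ j, R i j * sz (y j)) ^ 2 = 9) :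
    16 ≤ (∑ j, sz (y j)) ^ 2 := by
  have e : ∀ i : Fin 13, ∑ j, R i j * sz (y j) = sz (y i) + 2 * sz (y (i + 1)) - sz (y (i + 4)) - sz (y (i + 5)) +
      sz (y (i + 6)) + 2 * sz (y (i + 7)) - sz (y (i + 8)) + 2 * sz (y (i + 9)) - 3 * sz (y (i + 10)) + sz (y (i + 11)) := by
    intro i
    have hR : ∀ i j : Fin 13, R i (i + j) = rr.getD j 0 := by decide +kernel
    rw [← Equiv.sum_comp (Equiv.addLeft i)]
    simp only [Equiv.coe_addLeft, hR]
    simp [Fin.sum_univ_succ, rr]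
    ring
  have t : ∀ i : Fin 13, ok (y i) (y (i + 1)) (y (i + 4)) (y (i + 5)) (y (i + 6)) (y (i + 7)) (y (i + 8)) (y (i + 9))
      (y (i + 10)) (y (i + 11)) = true := fun i => by rw [ok, ← e, h]; rfl
  have := key (y 0) (y 1) (y 2) (y 3) (y 4) (y 5) (y 6) (y 7) (y 8) (y 9) (y 10) (y 11) (y 12) (by
    simp only [Bool.and_eq_true]
    exact ⟨⟨⟨⟨⟨⟨⟨⟨⟨⟨⟨⟨t 0, t 1⟩, t 2⟩, t 3⟩, t 4⟩, t 5⟩, t 6⟩, t 7⟩, t 8⟩, t 9⟩, t 10⟩, t 11⟩, t 12⟩)
  convert this using 2
  simp [Fin.sum_univ_succ]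
  ring

lemma big (x : Fin 26 → Bool) (h : ∀ i, ∑ k, A i k * sz (x k) = 0) : 64 ≤ (∑ k, sz (x k)) ^ 2 := by
  have hs : ∀ b, sz b ^ 2 = 1 := by decide
  have hR : ∀ j, ∑ i, R i j = 3 := by decide +kernel
  have h1 : ∀ i, ∑ j, R i j * sz (x (Fin.castAdd 13 j)) = 3 * sz (x (Fin.natAdd 13 i)) := by
    intro i
    have := h i
    rw [Fin.sum_univ_add (a := 13) (b := 13)] at this
    simp only [A, Fin.addCases_left, Fin.addCases_right, ite_mul, zero_mul, sum_ite_eq', mem_univ,
      if_true] at this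
    linarith
  have hk := key' (fun j => x (Fin.castAdd 13 j)) fun i => by rw [h1, mul_pow, hs]; norm_num
  have h2 := sum_congr rfl fun i (_ : i ∈ univ) => h1 i
  rw [sum_comm] at h2
  simp only [← sum_mul, hR, ← mul_sum] at h2
  rw [Fin.sum_univ_add (a := 13) (b := 13)]
  have h3 : ∑ j : Fin 13, sz (x (Fin.natAdd 13 j)) = ∑ j : Fin 13, sz (x (Fin.castAdd 13 j)) := by
    linarith
  rw [h3, ← two_mul, mul_pow]
  linarith

lemma not_inE {X : Matrix (Fin 26) (Fin 26) ℝ} (hX : ∀ i j, X i j = (gm r2 i j : ℝ) / 5) {m : ℕ}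
    (hm : 26 ≤ m + 1) : ¬ InE m X := by
  intro h
  obtain ⟨p, hp, h1⟩ := cut_of_inE hm h
  have sc : ∀ b, sg b = (sz b : ℝ) := fun b => by cases b <;> simp [sg, sz]
  have a1 : ∑ x, p x = 1 := by
    have := h1 0 0
    rw [hX, g2.2.1] at this
    rw [← show ((5 : ℤ) : ℝ) / 5 = 1 by norm_num, this]
    exact sum_congr rfl fun x _ => by cases x 0 <;> simp [sg]
  have a2 : ∀ x, p x * 64 ≤ p x * (∑ k, 1 * sg (x k)) ^ 2 := by
    intro x
    rcases (hp x).eq_or_lt with h0 | h0
    · simp [← h0]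
    · refine mul_le_mul_of_nonneg_left ?_ h0.le
      simp only [one_mul, sc]
      refine mod_cast big x fun i => ?_
      have b1 := quad h1 fun k => (A i k : ℝ)
      have b2 : ∑ k, ∑ l, (A i k : ℝ) * A i l * X k l = 0 := by
        have := congrArg (Int.cast : ℤ → ℝ) (gA.1 i)
        push_cast at this
        simp only [hX, ← mul_div_assoc, ← sum_div, this, zero_div]
      rw [b2, sum_eq_zero_iff_of_nonneg fun x _ => mul_nonneg (hp x) (sq_nonneg _)] at b1
      have b3 := pow_eq_zero_iff (two_ne_zero) |>.mp ((mul_eq_zero.mp (b1 x (mem_univ x))).resolve_left h0.ne')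
      simp only [sc] at b3
      exact_mod_cast b3
  have a3 := sum_le_sum fun x (_ : x ∈ univ) => a2 x
  rw [quad h1 fun _ => 1, ← sum_mul, a1] at a3
  have := congrArg (Int.cast : ℤ → ℝ) gA.2
  push_cast at this
  simp only [hX, one_mul, ← sum_div, this] at a3
  norm_num at a3

theorem result : ∃ v w : Fin 26 → Fin 13 → ℝ, IsETF v ∧ IsETF w ∧
    dstar (gram v) = ⊤ ∧ dstar (gram w) ≤ 50 ∧ dstar (gram v) ≠ dstar (gram w) := by
  obtain ⟨v, hv, ev⟩ := etf_of _ g1.1 g1.2.1 g1.2.2.1 g1.2.2.2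
  obtain ⟨w, hw, ew⟩ := etf_of _ g2.1 g2.2.1 g2.2.2.1 g2.2.2.2
  have a : dstar (gram v) = ⊤ := by
    have h : ∀ m, InE m (gram v) := inE_of_cut (fun _ : Fin 30 => 1 / 30) (fun l i => (W l i : ℝ))
      (fun _ => by norm_num) (by simp) (fun l i => by exact_mod_cast gW.2 l i) fun i j => by
        have := congrArg (Int.cast : ℤ → ℝ) (gW.1 i j)
        push_cast at this
        rw [ev, ← mul_sum, this]; ring
    refine ENat.eq_top_iff_forall_ge.mpr fun m => le_iSup₂_of_le m (h m) ?_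
    exact_mod_cast (by omega : m ≤ 2 * (m + 1))
  have b : dstar (gram w) ≤ 50 := iSup₂_le fun m hm => by
    have : ¬ 26 ≤ m + 1 := fun h => not_inE ew h hm
    exact_mod_cast (by omega : 2 * (m + 1) ≤ 50)
  exact ⟨v, w, hv, hw, a, b, fun h => by rw [← h, a] at b; exact absurd b (by decide)⟩

end Pool.Agent.Results.MP_dc1a88_an.Depends
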